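import Mathlib
import Pool.Agent.Helper78.LK.Goals

/-!
# Packet LK-LIFT (MP_5a63b6_lc): lifting replacements of tangles to decorated words
-/

set_option autoImplicit false

namespace Pool.Agent.Helper7.LK

open Pool.Agent.Helper50.KP Pool.Agent.Helper78.LK

theorem und_nil {L : DW} (h : und L = []) : L = [] := List.map_eq_nil_iff.mp h

theorem und_cons {L : DW} {K : Kind} {k : ℕ} {w : Word} (h : und L = (K, k) :: w) :
    ∃ (x : ℕ) (L' : DW), L = (K, k, x) :: L' ∧ und L' = w := by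
  cases L with
  | nil => simp [und] at h
  | cons e L' =>
    obtain ⟨K', k', x⟩ := e
    simp only [und, List.map_cons, List.cons.injEq, Prod.mk.injEq] at h
    obtain ⟨⟨rfl, rfl⟩, h2⟩ := h
    exact ⟨x, L', rfl, h2⟩

theorem und_append (L M : DW) : und (L ++ M) = und L ++ und M := by
  simp [und]

theorem und_split {W : DW} {u v : Word} (h : und W = u ++ v) :
    ∃ U V : DW, W = U ++ V ∧ und U = u ∧ und V = v := by
  obtain ⟨U, V, h1, h2, h3⟩ := List.map_eq_append_iff.mp h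
  exact ⟨U, V, h1, h2, h3⟩

/-- All names of crossings of `L` are in `S`. -/
def Nm (S : Finset ℕ) (L : DW) : Prop := ∀ e ∈ L, isX e.1 = true → e.2.2 ∈ S

theorem Nm.app {S : Finset ℕ} {L M : DW} (h : Nm S (L ++ M)) : Nm S L ∧ Nm S M :=
  ⟨fun e he => h e (List.mem_append_left _ he), fun e he => h e (List.mem_append_right _ he)⟩

theorem Nm.mk' {S : Finset ℕ} {L M : DW} (h : Nm S L) (h' : Nm S M) : Nm S (L ++ M) := by
  intro e he hx
  rcases List.mem_append.mp he with he | he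
  · exact h e he hx
  · exact h' e he hx

theorem pl_fwd {l r : Word} (h : Pl l r) {L : DW} (hL : und L = l) :
    ∃ R : DW, und R = r ∧ DPl L R ∧ ∀ S : Finset ℕ, Nm S L → Nm S R := by
  cases h with
  | zig i =>
    obtain ⟨x, L1, rfl, h1⟩ := und_cons hL
    obtain ⟨y, L2, rfl, h2⟩ := und_cons h1
    obtain rfl := und_nil h2
    exact ⟨[], rfl, .zig i x y, by intro S _ e he; simp at he⟩
  | zag i =>
    obtain ⟨x, L1, rfl, h1⟩ := und_cons hL
    obtain ⟨y, L2, rfl, h2⟩ := und_cons h1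
    obtain rfl := und_nil h2
    exact ⟨[], rfl, .zag i x y, by intro S _ e he; simp at he⟩
  | pcap i s =>
    obtain ⟨x, L1, rfl, h1⟩ := und_cons hL
    obtain ⟨y, L2, rfl, h2⟩ := und_cons h1
    obtain rfl := und_nil h2
    exact ⟨_, rfl, .pcap i s x y, by intro S hS; simpa [Nm, isX] using hS⟩
  | pcup i s =>
    obtain ⟨x, L1, rfl, h1⟩ := und_cons hL
    obtain ⟨y, L2, rfl, h2⟩ := und_cons h1
    obtain rfl := und_nil h2
    exact ⟨_, rfl, .pcup i s x y, by intro S hS; simpa [Nm, isX] using hS⟩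
  | comm K K' i d =>
    obtain ⟨x, L1, rfl, h1⟩ := und_cons hL
    obtain ⟨y, L2, rfl, h2⟩ := und_cons h1
    obtain rfl := und_nil h2
    exact ⟨_, rfl, .comm K K' i d x y, by
      intro S hS
      simp only [Nm, List.mem_cons, List.not_mem_nil, or_false, forall_eq_or_imp, forall_eq] at hS ⊢
      exact ⟨hS.2, hS.1⟩⟩

theorem pl_bwd {l r : Word} (h : Pl l r) {R : DW} (hR : und R = r) :
    ∃ L : DW, und L = l ∧ DPl L R ∧ ∀ S : Finset ℕ, 0 ∈ S → Nm S R → Nm S L := by
  cases h with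
  | zig i =>
    obtain rfl := und_nil hR
    exact ⟨_, rfl, .zig i 0 0, by intro S _ _; simp [Nm, isX]⟩
  | zag i =>
    obtain rfl := und_nil hR
    exact ⟨_, rfl, .zag i 0 0, by intro S _ _; simp [Nm, isX]⟩
  | pcap i s =>
    obtain ⟨x, L1, rfl, h1⟩ := und_cons hR
    obtain ⟨y, L2, rfl, h2⟩ := und_cons h1
    obtain rfl := und_nil h2
    exact ⟨_, rfl, .pcap i s x y, by intro S _ hS; simpa [Nm, isX] using hS⟩
  | pcup i s =>
    obtain ⟨x, L1, rfl, h1⟩ := und_cons hR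
    obtain ⟨y, L2, rfl, h2⟩ := und_cons h1
    obtain rfl := und_nil h2
    exact ⟨_, rfl, .pcup i s x y, by intro S _ hS; simpa [Nm, isX] using hS⟩
  | comm K K' i d =>
    obtain ⟨x, L1, rfl, h1⟩ := und_cons hR
    obtain ⟨y, L2, rfl, h2⟩ := und_cons h1
    obtain rfl := und_nil h2
    exact ⟨_, rfl, .comm K K' i d y x, by
      intro S _ hS
      simp only [Nm, List.mem_cons, List.not_mem_nil, or_false, forall_eq_or_imp, forall_eq] at hS ⊢
      exact ⟨hS.2, hS.1⟩⟩

theorem rd_fwd {l r : Word} (h : Rd l r) {L : DW} (hL : und L = l) :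
    ∃ R : DW, und R = r ∧ DRd L R ∧ ∀ S : Finset ℕ, Nm S L → Nm S R := by
  cases h with
  | r1cup i s =>
    obtain ⟨x, L1, rfl, h1⟩ := und_cons hL
    obtain ⟨y, L2, rfl, h2⟩ := und_cons h1
    obtain rfl := und_nil h2
    exact ⟨_, rfl, .r1cup i s x y, by intro S _; simp [Nm, isX]⟩
  | r1cap i s =>
    obtain ⟨x, L1, rfl, h1⟩ := und_cons hL
    obtain ⟨y, L2, rfl, h2⟩ := und_cons h1
    obtain rfl := und_nil h2
    exact ⟨_, rfl, .r1cap i s x y, by intro S _; simp [Nm, isX]⟩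
  | r2 i s =>
    obtain ⟨x, L1, rfl, h1⟩ := und_cons hL
    obtain ⟨y, L2, rfl, h2⟩ := und_cons h1
    obtain rfl := und_nil h2
    exact ⟨_, rfl, .r2 i s x y, by intro S _; simp [Nm, isX]⟩
  | r3 i s t u hs =>
    obtain ⟨x, L1, rfl, h1⟩ := und_cons hL
    obtain ⟨y, L2, rfl, h2⟩ := und_cons h1
    obtain ⟨z, L3, rfl, h3⟩ := und_cons h2
    obtain rfl := und_nil h3
    exact ⟨_, rfl, .r3 i s t u x y z hs, by
      intro S hS
      simp only [Nm, isX, List.mem_cons, List.not_mem_nil, or_false, forall_eq_or_imp, forall_eq]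
        at hS ⊢
      exact ⟨hS.2.2, hS.2.1, hS.1⟩⟩

theorem rd_bwd {l r : Word} (h : Rd l r) {R : DW} (hR : und R = r) :
    ∃ L : DW, und L = l ∧ DRd L R ∧ ∀ S : Finset ℕ, 0 ∈ S → Nm S R → Nm S L := by
  cases h with
  | r1cup i s =>
    obtain ⟨x, L1, rfl, h1⟩ := und_cons hR
    obtain rfl := und_nil h1
    exact ⟨_, rfl, .r1cup i s x 0, by intro S h0 _; simpa [Nm, isX] using h0⟩
  | r1cap i s =>
    obtain ⟨y, L1, rfl, h1⟩ := und_cons hR
    obtain rfl := und_nil h1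
    exact ⟨_, rfl, .r1cap i s 0 y, by intro S h0 _; simpa [Nm, isX] using h0⟩
  | r2 i s =>
    obtain rfl := und_nil hR
    exact ⟨_, rfl, .r2 i s 0 0, by intro S h0 _; simpa [Nm, isX] using h0⟩
  | r3 i s t u hs =>
    obtain ⟨x, L1, rfl, h1⟩ := und_cons hR
    obtain ⟨y, L2, rfl, h2⟩ := und_cons h1
    obtain ⟨z, L3, rfl, h3⟩ := und_cons h2
    obtain rfl := und_nil h3
    exact ⟨_, rfl, .r3 i s t u z y x hs, by
      intro S _ hS
      simp only [Nm, isX, List.mem_cons, List.not_mem_nil, or_false, forall_eq_or_imp, forall_eq]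
        at hS ⊢
      exact ⟨hS.2.2, hS.2.1, hS.1⟩⟩

theorem lift_step {S : Finset ℕ} (h0 : 0 ∈ S) {l r : Word} (h : Pl l r ∨ Pl r l ∨ Rd l r ∨ Rd r l)
    {L : DW} (hL : und L = l) (hS : Nm S L) : ∃ R : DW, und R = r ∧ Nm S R ∧
      (DPl L R ∨ DPl R L ∨ ((DRd L R ∨ DRd R L) ∧ ∀ e ∈ L ++ R, isX e.1 = true → e.2.2 ∈ S)) := by
  rcases h with h | h | h | h
  · obtain ⟨R, h1, h2, h3⟩ := pl_fwd h hL
    exact ⟨R, h1, h3 S hS, Or.inl h2⟩
  · obtain ⟨R, h1, h2, h3⟩ := pl_bwd h hL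
    exact ⟨R, h1, h3 S h0 hS, Or.inr (Or.inl h2)⟩
  · obtain ⟨R, h1, h2, h3⟩ := rd_fwd h hL
    exact ⟨R, h1, h3 S hS, Or.inr (Or.inr ⟨Or.inl h2, Nm.mk' hS (h3 S hS)⟩)⟩
  · obtain ⟨R, h1, h2, h3⟩ := rd_bwd h hL
    exact ⟨R, h1, h3 S h0 hS, Or.inr (Or.inr ⟨Or.inr h2, Nm.mk' hS (h3 S h0 hS)⟩)⟩

theorem dstep_mono {T T' : Finset ℕ} (h : T ⊆ T') {W W' : DW} (hW : DStep T W W') :
    DStep T' W W' := by
  obtain ⟨h1, h2, U, V, L, R, h3, h4, h5⟩ := hW
  refine ⟨h1, h2, U, V, L, R, ?_, h4, h5⟩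
  rcases h3 with h3 | h3 | ⟨h3, h6⟩
  · exact Or.inl h3
  · exact Or.inr (Or.inl h3)
  · exact Or.inr (Or.inr ⟨h3, fun e he hx => h (h6 e he hx)⟩)

theorem crossings_und (L : DW) : crossings (und L) = L.countP fun e => isX e.1 := by
  unfold crossings und
  rw [List.countP_map]
  refine List.countP_congr fun e _ => ?_
  obtain ⟨K, k, x⟩ := e
  cases K <;> simp [isX]

/-- The names of the crossings. -/
def nms (L : DW) : Finset ℕ := ((L.filter fun e => isX e.1).map fun e => e.2.2).toFinset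

theorem nms_card (L : DW) : (nms L).card ≤ crossings (und L) := by
  rw [crossings_und, List.countP_eq_length_filter]
  refine (List.toFinset_card_le _).trans ?_
  rw [List.length_map]

theorem nm_nms (L : DW) : Nm (nms L) L := by
  intro e he hx
  rw [nms, List.mem_toFinset, List.mem_map]
  exact ⟨e, List.mem_filter.mpr ⟨he, hx⟩, rfl⟩

theorem lift_aux (hTQ : TQ) {k : ℕ} {w w' : Word} (hl : Local k w w') (hw : IsDia w) (W : DW)
    (hW : und W = w) : IsDia w' ∧ ∃ (T : Finset ℕ) (W' : DW), T.card ≤ k ∧ und W' = w' ∧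
      Relation.ReflTransGen (DStep (insert 0 T)) W W' := by
  induction hl with
  | refl w => exact ⟨hw, ∅, W, by simp, hW, .refl⟩
  | iso h1 h2 ih =>
    obtain ⟨_, T, W', hT, hW', hch⟩ := ih hw hW
    obtain ⟨ha, hb, u, v, l, r, hpl, hu, hv⟩ := h2
    have e1 : und W' = u ++ l ++ v := hW'.trans hu
    obtain ⟨UL, V, e2, e3, e4⟩ := und_split e1
    obtain ⟨U, L, e5, e6, e7⟩ := und_split e3
    obtain ⟨R, e8, e9⟩ : ∃ R : DW, und R = r ∧ (DPl L R ∨ DPl R L) := by
      rcases hpl with hpl | hpl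
      · obtain ⟨R, h3, h4, _⟩ := pl_fwd hpl e7
        exact ⟨R, h3, Or.inl h4⟩
      · obtain ⟨R, h3, h4, _⟩ := pl_bwd hpl e7
        exact ⟨R, h3, Or.inr h4⟩
    refine ⟨hb, T, U ++ R ++ V, hT, ?_, hch.tail ?_⟩
    · rw [und_append, und_append, e6, e8, e4, hv]
    · refine ⟨?_, ?_, U, V, L, R, ?_, ?_, rfl⟩
      · rw [hW']
        rw [show str _ 0 = some 0 from ha]; rfl
      · rw [und_append, und_append, e6, e8, e4, ← hv]
        rw [show str _ 0 = some 0 from hb]; rfl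
      · rcases e9 with e9 | e9
        · exact Or.inl e9
        · exact Or.inr (Or.inl e9)
      · rw [e2, e5]
  | @rep k n w u v l l' h1 hu hT ih =>
    obtain ⟨hdia, T, W', hTk, hW', hch⟩ := ih hw hW
    obtain ⟨UL, V, e2, e3, e4⟩ := und_split hW'
    obtain ⟨U, L, e5, e6, e7⟩ := und_split e3
    have hval : ∀ l'' : Word, Teq n l l'' → str (u ++ l'' ++ v) 0 = some 0 := by
      intro l'' hl''
      have hd' : str (u ++ l ++ v) 0 = some 0 := hdia
      have h3 := hTQ.2.1 0 n u v l l'' hu (by rw [hd']; rfl) hl''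
      have h4 := (hTQ.1 0 _ _ h3).2
      rw [← h4, hd']
    have key : ∀ l'' : Word, Teq n l l'' → ∃ L'' : DW, und L'' = l'' ∧
        Nm (insert 0 (T ∪ nms L)) L'' ∧
        Relation.ReflTransGen (DStep (insert 0 (T ∪ nms L))) (U ++ L ++ V) (U ++ L'' ++ V) := by
      intro l'' hl''
      induction hl'' with
      | refl =>
        refine ⟨L, e7, ?_, .refl⟩
        intro e he hx
        exact Finset.mem_insert_of_mem (Finset.mem_union_right _ (nm_nms L e he hx))
      | @tail b c hab hbc ihb =>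
        obtain ⟨L2, f1, f2, f3⟩ := ihb
        have hac : Teq n l c := Relation.ReflTransGen.tail hab hbc
        obtain ⟨_, _, u1, v1, l1, r1, hmv, g1, g2⟩ := hbc
        rw [g1] at f1
        obtain ⟨UL1, V1, k2, k3, k4⟩ := und_split f1
        obtain ⟨U1, L1, k5, k6, k7⟩ := und_split k3
        have hnm : Nm (insert 0 (T ∪ nms L)) U1 ∧ Nm (insert 0 (T ∪ nms L)) L1 ∧
            Nm (insert 0 (T ∪ nms L)) V1 := by
          rw [k2, k5] at f2
          exact ⟨(Nm.app (Nm.app f2).1).1, (Nm.app (Nm.app f2).1).2, (Nm.app f2).2⟩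
        obtain ⟨R1, m1, m2, m3⟩ := lift_step (Finset.mem_insert_self 0 _) hmv k7 hnm.2.1
        have hun : und (U1 ++ R1 ++ V1) = c := by
          rw [und_append, und_append, k6, m1, k4, g2]
        refine ⟨U1 ++ R1 ++ V1, hun, Nm.mk' (Nm.mk' hnm.1 m2) hnm.2.2, f3.tail ?_⟩
        refine ⟨?_, ?_, U ++ U1, V1 ++ V, L1, R1, m3, ?_, ?_⟩
        · rw [und_append, und_append, e6, f1, e4, ← g1, hval b hab]; rfl
        · rw [und_append, und_append, e6, hun, e4, hval c hac]; rfl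
        · rw [k2, k5]; simp only [List.append_assoc]
        · simp only [List.append_assoc]
    obtain ⟨L', f1, _, f3⟩ := key l' hT
    refine ⟨hval l' hT, T ∪ nms L, U ++ L' ++ V, ?_, ?_, ?_⟩
    · refine (Finset.card_union_le _ _).trans ?_
      have := nms_card L
      rw [e7] at this
      omega
    · rw [und_append, und_append, e6, f1, e4]
    · have hmono : Relation.ReflTransGen (DStep (insert 0 (T ∪ nms L))) W W' := by
        refine Relation.ReflTransGen.mono ?_ _ _ hch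
        intro a b hab
        exact dstep_mono (Finset.insert_subset_insert 0 Finset.subset_union_left) hab
      refine hmono.trans ?_
      rw [e2, e5]
      exact f3

theorem gLIFT (hTQ : TQ) : LIFT := by
  intro k w w' W hw hl hW
  exact (lift_aux hTQ hl hw W hW).2

end Pool.Agent.Helper7.LK
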